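import Pool.Agent.L7h1.AS.Stm

/-! Project AS: PZ. -/

set_option autoImplicit false

namespace Pool.Agent.L7h99.AS

open Pool.Agent.L7h1.AS

theorem s_PZ : S_PZ := by
  intro Z
  refine ⟨⌈Real.exp (4 ^ Z)⌉₊, fun N hN => ?_⟩
  have h1 : Real.exp (4 ^ Z) ≤ (N : ℝ) := (Nat.le_ceil _).trans (by exact_mod_cast hN)
  have hpos : (0 : ℝ) < N := (Real.exp_pos _).trans_le h1
  have h2 : (4 : ℝ) ^ Z ≤ Real.log N := by
    rw [Real.le_log_iff_exp_le hpos]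
    exact h1
  have h3 : 4 ^ Z ≤ ⌊Real.log N⌋₊ := Nat.le_floor (by push_cast; exact h2)
  have h4 : ⌊Real.log N⌋₊ ≠ 0 := by
    have : 0 < 4 ^ Z := by positivity
    omega
  have h0 : 0 ≤ Real.log N := le_trans (by positivity) h2
  refine ⟨Nat.le_log_of_pow_le (by norm_num) h3, primorial_pos _, ?_⟩
  calc (primorial (zN N) : ℝ) ≤ ((4 ^ zN N : ℕ) : ℝ) := by exact_mod_cast primorial_le_four_pow _
    _ ≤ ((⌊Real.log N⌋₊ : ℕ) : ℝ) := by exact_mod_cast Nat.pow_log_le_self 4 h4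
    _ ≤ Real.log N := Nat.floor_le h0

end Pool.Agent.L7h99.AS
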